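import Pool.Agent.N819.UD.LI

/-!
# Real cocycles on the infinite cyclic covering and the metabelian quotients they define
-/

set_option autoImplicit false

namespace Pool.Agent.Run7.h178.WD

open Pool.Agent.TH625.LOG Pool.Agent.N819.LT Pool.Agent.N819.UD

/-- A real cocycle on the infinite cyclic covering of the complex of `L`: the number `s v n` is the
value of the 1-cell `x_v` which starts at the vertex `n`; the sum around every 2-cell is zero. -/
def IsCocycle {V E : Type} (L : LOG V E) (s : V → ℤ → ℝ) : Prop :=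
  ∀ e n, s (L.ini e) n + s (L.lab e) (n + 1) = s (L.lab e) n + s (L.ter e) (n + 1)

/-- functions on the integers with values in the reals, extended by the translations -/
abbrev AA : Type := (Multiplicative ℤ → Multiplicative ℝ) ⋊[shiftAut (Multiplicative ℤ)
  (Multiplicative ℝ)] (Multiplicative ℤ)

/-- the image of a generator -/
def aGen {V : Type} (s : V → ℤ → ℝ) (v : V) : AA :=
  ⟨fun a => Multiplicative.ofAdd (s v (Multiplicative.toAdd a)), Multiplicative.ofAdd 1⟩

/-- the position of an element, for the shift `a` -/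
def po (a : ℤ) (g : AA) : ℝ := Multiplicative.toAdd (g.left (Multiplicative.ofAdd a))

/-- the height of an element -/
def hgt (g : AA) : ℤ := Multiplicative.toAdd g.right

theorem po_mul (a : ℤ) (g h : AA) : po a (g * h) = po a g + po (a + hgt g) h := rfl

theorem hgt_mul (g h : AA) : hgt (g * h) = hgt g + hgt h := rfl

theorem po_one (a : ℤ) : po a 1 = 0 := rfl

theorem hgt_inv (g : AA) : hgt g⁻¹ = - hgt g := rfl

theorem po_gen {V : Type} (s : V → ℤ → ℝ) (v : V) (a : ℤ) : po a (aGen s v) = s v a := rfl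

theorem hgt_gen {V : Type} (s : V → ℤ → ℝ) (v : V) : hgt (aGen s v) = 1 := rfl

theorem po_inv (a : ℤ) (g : AA) : po (a + hgt g) g⁻¹ = - po a g := by
  have h := po_mul a g g⁻¹
  rw [mul_inv_cancel, po_one] at h
  linarith

theorem ext_AA (g h : AA) (h1 : ∀ a, po a g = po a h) (h2 : hgt g = hgt h) : g = h := by
  apply SemidirectProduct.ext
  · funext a
    exact h1 (Multiplicative.toAdd a)
  · exact h2

theorem aGen_rel {V E : Type} (L : LOG V E) (s : V → ℤ → ℝ) (hs : IsCocycle L s) (e : E) :
    aGen s (L.ini e) * aGen s (L.lab e) = aGen s (L.lab e) * aGen s (L.ter e) := by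
  apply ext_AA
  · intro a
    rw [po_mul, po_mul, po_gen, po_gen, po_gen, po_gen, hgt_gen, hgt_gen]
    exact hs e a
  · rw [hgt_mul, hgt_mul, hgt_gen, hgt_gen, hgt_gen]

/-- the homomorphism of the group of a labelled oriented graph -/
def rho {V E : Type} (L : LOG V E) (s : V → ℤ → ℝ) (hs : IsCocycle L s) : L.G →* AA :=
  PresentedGroup.toGroup (f := aGen s) (by
    rintro _ ⟨e, rfl⟩
    simp only [LOG.rel, map_mul, map_inv, FreeGroup.lift_apply_of]
    rw [aGen_rel L s hs e]
    group)

theorem rho_gen {V E : Type} (L : LOG V E) (s : V → ℤ → ℝ) (hs : IsCocycle L s) (v : V) :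
    rho L s hs (L.gen v) = aGen s v := PresentedGroup.toGroup.of _

theorem hgt_rho {V E : Type} (L : LOG V E) (s : V → ℤ → ℝ) (hs : IsCocycle L s) (g : L.G) :
    hgt (rho L s hs g) = Multiplicative.toAdd (chi L g) := by
  have h : (SemidirectProduct.rightHom.comp (rho L s hs)) = chi L := by
    apply PresentedGroup.ext
    intro v
    show (rho L s hs (L.gen v)).right = chi L (L.gen v)
    rw [rho_gen, chi_gen]
    rfl
  exact congrArg Multiplicative.toAdd (DFunLike.congr_fun h g)

/-- the change of the position -/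
theorem po_change {V : Type} (s : V → ℤ → ℝ) (g : AA) (v v' : V) (a : ℤ) :
    po a (g * aGen s v * (aGen s v')⁻¹) - po a g = s v (a + hgt g) - s v' (a + hgt g) := by
  have h1 : po a (g * aGen s v * (aGen s v')⁻¹) =
      po a g + s v (a + hgt g) + po (a + hgt g + 1) (aGen s v')⁻¹ := by
    rw [po_mul, po_mul, hgt_mul, po_gen, hgt_gen, add_assoc a]
  have h2 := po_inv (a + hgt g) (aGen s v')
  rw [hgt_gen, po_gen] at h2
  rw [h1, h2]
  ring

theorem po_change' {V : Type} (s : V → ℤ → ℝ) (g : AA) (v v' : V) (a : ℤ) :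
    po a (g * (aGen s v)⁻¹ * aGen s v') - po a g =
      s v' (a + hgt g - 1) - s v (a + hgt g - 1) := by
  have h0 : hgt (aGen s v)⁻¹ = -1 := rfl
  have h1 : po a (g * (aGen s v)⁻¹ * aGen s v') =
      po a g + po (a + hgt g) (aGen s v)⁻¹ + s v' (a + (hgt g + -1)) := by
    rw [po_mul, po_mul, hgt_mul, po_gen, h0]
  have h2 := po_inv (a + hgt g - 1) (aGen s v)
  rw [hgt_gen, po_gen, sub_add_cancel] at h2
  have h3 : a + (hgt g + -1) = a + hgt g - 1 := by ring
  rw [h1, h2, h3]
  ring

/-- **The group is locally indicable.** -/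
theorem locInd_AA : LocInd AA := by
  refine LocInd.ext locInd_int (SemidirectProduct.rightHom : AA →* Multiplicative ℤ)
    fun H hH hne hk => ?_
  have : Group.FG H := (Group.fg_iff_subgroup_fg H).2 hH
  have h1 : ∃ x ∈ H, x ≠ 1 := by
    by_contra hcon
    push Not at hcon
    exact hne ((Subgroup.eq_bot_iff_forall H).2 hcon)
  obtain ⟨x, hx, hx1⟩ := h1
  have hz : ∀ y ∈ H, hgt y = 0 := fun y hy => by
    have : (SemidirectProduct.rightHom : AA →* Multiplicative ℤ) y = 1 := hk hy
    exact congrArg Multiplicative.toAdd this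
  have h2 : ∃ a, po a x ≠ 0 := by
    by_contra hcon
    push Not at hcon
    exact hx1 (ext_AA x 1 (fun a => hcon a) (hz x hx))
  obtain ⟨a, ha⟩ := h2
  let τ : H →* Multiplicative ℝ := MonoidHom.mk' (fun y => Multiplicative.ofAdd (po a y.1)) (by
    intro y z
    show Multiplicative.ofAdd (po a (y.1 * z.1)) = _
    rw [po_mul, hz y.1 y.2, add_zero]
    rfl)
  exact real_to_int τ ⟨x, hx⟩ (fun h => ha h)

end Pool.Agent.Run7.h178.WD
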