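import Pool.Agent.Run7.h178.WD.Acyc
import Pool.Agent.Run7.h178.WD.Grp

/-!
# Separated spanning decompositions
-/

set_option autoImplicit false

namespace Pool.Agent.Run7.h178.WD

open Pool.Agent.TH625.LOG Pool.Agent.N819.LT Pool.Agent.N819.UD Finset

/-- There is a spanning decomposition, and any two different ones have different weights for some
real cocycle on the infinite cyclic covering. -/
def Separated {V E : Type} [Fintype E] (L : LOG V E) (p q : E → V) : Prop :=
  (∃ S : Set E, Mix p q L.lab S ∧ Spans p L.lab S) ∧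
    ∀ S S' : Set E, Mix p q L.lab S → Spans p L.lab S → Mix p q L.lab S' → Spans p L.lab S' →
      S ≠ S' → ∃ s : V → ℤ → ℝ, IsCocycle L s ∧
        wt (fun e => s (L.lab e) 0) S ≠ wt (fun e => s (L.lab e) 0) S'

/-- the space of the cocycles -/
def coc {V E : Type} (L : LOG V E) : Submodule ℝ (V → ℤ → ℝ) where
  carrier := {s | IsCocycle L s}
  zero_mem' := fun _ _ => rfl
  add_mem' := by
    intro s s' h h' e n
    have h1 := h e n
    have h2 := h' e n
    simp only [Pi.add_apply]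
    linarith
  smul_mem' := by
    intro r s h e n
    have h1 := h e n
    simp only [Pi.smul_apply, smul_eq_mul]
    rw [← mul_add, ← mul_add, h1]

theorem wt_lin {V E : Type} [Fintype E] (L : LOG V E) (S : Set E) (r : ℝ) (s s' : V → ℤ → ℝ) :
    wt (fun e => (r • s + s') (L.lab e) 0) S =
      r * wt (fun e => s (L.lab e) 0) S + wt (fun e => s' (L.lab e) 0) S := by
  classical
  unfold wt
  rw [Finset.mul_sum, ← Finset.sum_add_distrib]
  refine Finset.sum_congr rfl fun e _ => ?_
  by_cases h : e ∈ S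
  · simp [h]
  · simp [h]

/-- the difference of the weights of two sets, as a linear function of the cocycle -/
noncomputable def wd {V E : Type} [Fintype E] (L : LOG V E) (S S' : Set E) : coc L →ₗ[ℝ] ℝ where
  toFun s := wt (fun e => s.1 (L.lab e) 0) S - wt (fun e => s.1 (L.lab e) 0) S'
  map_add' s s' := by
    have h1 := wt_lin L S 1 s.1 s'.1
    have h2 := wt_lin L S' 1 s.1 s'.1
    simp only [one_smul, one_mul] at h1 h2
    show wt (fun e => (s.1 + s'.1) (L.lab e) 0) S - wt (fun e => (s.1 + s'.1) (L.lab e) 0) S' = _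
    rw [h1, h2]
    ring
  map_smul' r s := by
    have h1 := wt_lin L S r s.1 0
    have h2 := wt_lin L S' r s.1 0
    have h3 : ∀ T : Set E, wt (fun e => (0 : V → ℤ → ℝ) (L.lab e) 0) T = 0 := fun T => by
      unfold wt
      exact Finset.sum_eq_zero fun e _ => by simp
    simp only [add_zero, h3] at h1 h2
    show wt (fun e => (r • s.1) (L.lab e) 0) S - wt (fun e => (r • s.1) (L.lab e) 0) S' = _
    rw [h1, h2]
    simp only [RingHom.id_apply, smul_eq_mul]
    ring

/-- a single cocycle separates all spanning decompositions -/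
theorem exists_min {V E : Type} [Fintype E] (L : LOG V E) (p q : E → V)
    (h : Separated L p q) : ∃ s, IsCocycle L s ∧ ∃ S, MinDec p q L.lab (fun e => s (L.lab e) 0) S := by
  classical
  obtain ⟨⟨S0, h0, h0'⟩, hsep⟩ := h
  let I : Type := {x : Set E × Set E // (Mix p q L.lab x.1 ∧ Spans p L.lab x.1) ∧
    (Mix p q L.lab x.2 ∧ Spans p L.lab x.2) ∧ x.1 ≠ x.2}
  obtain ⟨s, hs⟩ : ∃ s : coc L, ∀ x : I, wd L x.1.1 x.1.2 s ≠ 0 := by
    refine Module.Dual.exists_forall_ne_zero_of_forall_exists (fun x : I => wd L x.1.1 x.1.2) ?_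
    rintro ⟨⟨S, S'⟩, h1, h2, h3⟩
    obtain ⟨s, hs, hne⟩ := hsep S S' h1.1 h1.2 h2.1 h2.2 h3
    exact ⟨⟨s, hs⟩, sub_ne_zero.2 hne⟩
  refine ⟨s.1, s.2, ?_⟩
  obtain ⟨S, hS, hmin⟩ := Set.exists_min_image {S : Set E | Mix p q L.lab S ∧ Spans p L.lab S}
    (fun S => wt (fun e => s.1 (L.lab e) 0) S) (Set.toFinite _) ⟨S0, h0, h0'⟩
  refine ⟨S, hS, fun S' h1 h2 hne => ?_⟩
  refine lt_of_le_of_ne (hmin S' ⟨h1, h2⟩) fun heq => ?_
  exact hs ⟨(S, S'), hS, ⟨h1, h2⟩, hne.symm⟩ (sub_eq_zero.2 heq)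

end Pool.Agent.Run7.h178.WD
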