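import Mathlib

/-!
# Minimal closed walks of nonpositive cost are triangular

Two relations `P`, `Q` and a function `w`; a closed walk is a sequence
`f 0, b 0, f 1, b 1, …, f (m-1), b (m-1)` with `P (f t) (b t)`, `Q (b t) (f (t+1))`, `f m = f 0`. Its cost is
the sum of the `w (b t) - w (f t)`. A closed walk of nonpositive cost with the smallest number of steps
visits its points once, and the relations between its points are triangular.
-/

set_option autoImplicit false

namespace Pool.Agent.Run7.h178.WD

open Finset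

variable {E : Type}

/-- there is a closed walk with `m` steps and nonpositive cost -/
def CW (P Q : E → E → Prop) (w : E → ℝ) (m : ℕ) : Prop :=
  0 < m ∧ ∃ F B : ℕ → E, (∀ t < m, P (F t) (B t)) ∧ (∀ t, t + 1 < m → Q (B t) (F (t + 1))) ∧
    Q (B (m - 1)) (F 0) ∧ ∑ t ∈ range m, (w (B t) - w (F t)) ≤ 0

theorem sum_shift (u : ℕ → ℝ) (i l : ℕ) :
    ∑ t ∈ range l, u (i + t) = ∑ t ∈ range (i + l), u t - ∑ t ∈ range i, u t := by
  rw [Finset.sum_range_add]
  ring

section

variable [DecidableEq E] {P Q : E → E → Prop} {w : E → ℝ}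

/-- **The structure of a minimal closed walk.** -/
theorem walk (hex : ∃ m, CW P Q w m) :
    ∃ (W : Finset E) (β σ : E → E) (g h : E → ℝ), W.Nonempty ∧
      (∀ e ∈ W, σ e ∈ W) ∧ (∀ e ∈ W, ∀ e' ∈ W, σ e = σ e' → e = e') ∧
      (∀ e ∈ W, P e (β e)) ∧ (∀ e ∈ W, ∀ e' ∈ W, P e (β e') → e' = e ∨ g e < g e') ∧
      (∀ e ∈ W, Q (β e) (σ e)) ∧ (∀ e ∈ W, ∀ e' ∈ W, Q (β e) e' → e' = σ e ∨ h e' < h (σ e)) ∧
      ∑ e ∈ W, (w (β e) - w e) ≤ 0 := by
  classical
  obtain ⟨m, hm, hmin⟩ : ∃ m, CW P Q w m ∧ ∀ l < m, ¬ CW P Q w l :=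
    ⟨Nat.find hex, Nat.find_spec hex, fun l hl => Nat.find_min hex hl⟩
  obtain ⟨m0, F, B, hP, hQ, hQ0, hc⟩ := hm
  -- periodic extension
  obtain ⟨f, hf⟩ : ∃ f : ℕ → E, ∀ t, f t = F (t % m) := ⟨_, fun _ => rfl⟩
  obtain ⟨b, hb⟩ : ∃ b : ℕ → E, ∀ t, b t = B (t % m) := ⟨_, fun _ => rfl⟩
  have hfm : ∀ t, f (t + m) = f t := fun t => by rw [hf, hf, Nat.add_mod_right]
  have hbm : ∀ t, b (t + m) = b t := fun t => by rw [hb, hb, Nat.add_mod_right]
  have hfmod : ∀ t, f (t % m) = f t := fun t => by rw [hf, hf, Nat.mod_mod]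
  have hPt : ∀ t, P (f t) (b t) := fun t => by
    rw [hf, hb]
    exact hP _ (Nat.mod_lt _ m0)
  have hQt : ∀ t, Q (b t) (f (t + 1)) := fun t => by
    rw [hf, hb]
    have hlt := Nat.mod_lt t m0
    by_cases h1 : t % m + 1 < m
    · have h2 : (t + 1) % m = t % m + 1 := by
        rw [Nat.add_mod, Nat.mod_eq_of_lt (show 1 < m by omega), Nat.mod_eq_of_lt h1]
      rw [h2]
      exact hQ _ h1
    · have h2 : t % m = m - 1 := by omega
      have h3 : (t + 1) % m = 0 := by
        rw [Nat.add_mod, h2]
        by_cases h4 : m = 1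
        · subst h4; simp [Nat.mod_one]
        · rw [Nat.mod_eq_of_lt (show 1 < m by omega)]
          have : m - 1 + 1 = m := by omega
          rw [this, Nat.mod_self]
      rw [h2, h3]
      exact hQ0
  obtain ⟨H, hH⟩ : ∃ H : ℕ → ℝ, ∀ i, H i = ∑ t ∈ range i, (w (b t) - w (f t)) := ⟨_, fun _ => rfl⟩
  have hH0 : H 0 = 0 := by rw [hH]; simp
  have hHm : H m ≤ 0 := by
    rw [hH]
    refine le_trans (le_of_eq (Finset.sum_congr rfl fun t ht => ?_)) hc
    have := Nat.mod_eq_of_lt (Finset.mem_range.1 ht)
    rw [hf, hb, this]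
  have hHs : ∀ i, H (i + 1) = H i + (w (b i) - w (f i)) := fun i => by
    rw [hH, hH, Finset.sum_range_succ]
  have hHp : ∀ i, H (i + m) = H i + H m := by
    intro i
    induction i with
    | zero => rw [Nat.zero_add, hH0, zero_add]
    | succ i ih =>
      have : i + 1 + m = (i + m) + 1 := by ring
      rw [this, hHs, ih, hHs, hbm, hfm]
      ring
  -- chords
  have chordQ : ∀ i k, i ≤ k → k + 1 < i + m → Q (b k) (f i) → H i < H (k + 1) := by
    intro i k hik hk hq
    by_contra hcon
    rw [not_lt] at hcon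
    refine hmin (k + 1 - i) (by omega) ⟨by omega, fun t => f (i + t), fun t => b (i + t),
      fun t _ => hPt _, fun t _ => hQt _, ?_, ?_⟩
    · have e1 : i + (k + 1 - i - 1) = k := by omega
      show Q (b (i + (k + 1 - i - 1))) (f (i + 0))
      rw [e1]
      exact hq
    · show ∑ t ∈ range (k + 1 - i), (w (b (i + t)) - w (f (i + t))) ≤ 0
      rw [sum_shift (fun t => w (b t) - w (f t)) i (k + 1 - i)]
      have e1 : i + (k + 1 - i) = k + 1 := by omega
      rw [e1, ← hH, ← hH]
      linarith
  obtain ⟨G, hG⟩ : ∃ G : ℕ → ℝ, ∀ i, G i = w (f i) - H i := ⟨_, fun _ => rfl⟩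
  have chordP : ∀ i j, i < j → j < i + m → P (f j) (b i) → G j < G i := by
    intro i j hij hj hp
    by_contra hcon
    rw [not_lt] at hcon
    refine hmin (j - i) (by omega) ⟨by omega, fun t => if t = 0 then f j else f (i + t),
      fun t => b (i + t), ?_, ?_, ?_, ?_⟩
    · intro t _
      by_cases ht : t = 0
      · subst ht
        simp only [if_true, Nat.add_zero]
        exact hp
      · simp only [ht, if_false]
        exact hPt _
    · intro t _
      have : ¬ (t + 1 = 0) := by omega
      simp only [this, if_false]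
      exact hQt (i + t)
    · simp only [if_true]
      have e1 : i + (j - i - 1) + 1 = j := by omega
      have := hQt (i + (j - i - 1))
      rwa [e1] at this
    · have e0 : ∑ t ∈ range (j - i), (w (b (i + t)) - w (if t = 0 then f j else f (i + t))) =
          ∑ t ∈ range (j - i), (w (b (i + t)) - w (f (i + t))) + (w (f i) - w (f j)) := by
        obtain ⟨l, hl⟩ : ∃ l, j - i = l + 1 := ⟨j - i - 1, by omega⟩
        rw [hl, Finset.sum_range_succ', Finset.sum_range_succ']
        simp only [if_true, Nat.add_zero, Nat.succ_ne_zero, if_false]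
        ring
      rw [e0, sum_shift (fun t => w (b t) - w (f t)) i (j - i)]
      have e1 : i + (j - i) = j := by omega
      rw [e1, ← hH, ← hH]
      rw [hG, hG] at hcon
      linarith
  have inj : ∀ x y, x < m → y < m → f x = f y → x = y := by
    have aux : ∀ x y, x < y → y < m → f x ≠ f y := by
      intro x y hxy hym heq
      have h1 : H x < H y := by
        have := chordQ x (y - 1) (by omega) (by omega) (by
          rw [heq]
          have := hQt (y - 1)
          rwa [show y - 1 + 1 = y by omega] at this)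
        rwa [show y - 1 + 1 = y by omega] at this
      have h2 : H y < H (x + m) := by
        have := chordQ y (x + m - 1) (by omega) (by omega) (by
          rw [← heq, ← hfm x]
          have := hQt (x + m - 1)
          rwa [show x + m - 1 + 1 = x + m by omega] at this)
        rwa [show x + m - 1 + 1 = x + m by omega] at this
      rw [hHp] at h2
      linarith
    intro x y hx hy heq
    rcases lt_trichotomy x y with h | h | h
    · exact absurd heq (aux x y h hy)
    · exact h
    · exact absurd heq.symm (aux y x h hx)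
  let W : Finset E := (range m).image f
  have hmemW : ∀ t, f t ∈ W := fun t => by
    rw [← hfmod t]
    exact Finset.mem_image_of_mem f (Finset.mem_range.2 (Nat.mod_lt _ m0))
  have hidx : ∀ e ∈ W, ∃ x, x < m ∧ f x = e := by
    intro e he
    obtain ⟨x, hx, rfl⟩ := Finset.mem_image.1 he
    exact ⟨x, Finset.mem_range.1 hx, rfl⟩
  choose! idx hidxm hidxf using hidx
  have hidx' : ∀ x, x < m → idx (f x) = x := fun x hx =>
    inj _ _ (hidxm _ (hmemW x)) hx (hidxf _ (hmemW x))
  have hGm : ∀ x, G x ≤ G (x + m) := by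
    intro x
    rw [hG, hG, hfm, hHp]
    linarith
  refine ⟨W, fun e => b (idx e), fun e => f (idx e + 1), fun e => G (idx e), fun e => H (idx e),
    ⟨f 0, hmemW 0⟩, fun e _ => hmemW _, ?_, ?_, ?_, ?_, ?_, ?_⟩
  · intro e he e' he' heq
    have hx := hidxm e he
    have hy := hidxm e' he'
    have h1 : (idx e + 1) % m = (idx e' + 1) % m :=
      inj _ _ (Nat.mod_lt _ m0) (Nat.mod_lt _ m0) (by rw [hfmod, hfmod]; exact heq)
    have h2 : idx e % m = idx e' % m := Nat.ModEq.add_right_cancel' 1 h1
    rw [Nat.mod_eq_of_lt hx, Nat.mod_eq_of_lt hy] at h2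
    rw [← hidxf e he, ← hidxf e' he', h2]
  · intro e he
    have := hPt (idx e)
    rwa [hidxf e he] at this
  · intro e he e' he' hp
    have hx := hidxm e he
    have hy := hidxm e' he'
    rw [← hidxf e he] at hp
    rcases lt_trichotomy (idx e') (idx e) with h | h | h
    · exact Or.inr (chordP _ _ h (by omega) hp)
    · left
      rw [← hidxf e he, ← hidxf e' he', h]
    · right
      have h1 := chordP (idx e') (idx e + m) (by omega) (by omega) (by rw [hfm]; exact hp)
      exact lt_of_le_of_lt (hGm _) h1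
  · intro e he
    exact hQt _
  · intro e he e' he' hq
    have hx := hidxm e he
    have hy := hidxm e' he'
    rw [← hidxf e' he'] at hq
    show e' = f (idx e + 1) ∨ H (idx e') < H (idx (f (idx e + 1)))
    by_cases hx1 : idx e + 1 < m
    · rw [hidx' _ hx1]
      rcases lt_trichotomy (idx e') (idx e + 1) with h | h | h
      · exact Or.inr (chordQ _ _ (by omega) (by omega) hq)
      · left
        rw [← h, hidxf e' he']
      · right
        have h1 := chordQ (idx e') (idx e + m) (by omega) (by omega) (by rw [hbm]; exact hq)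
        have e1 : idx e + m + 1 = (idx e + 1) + m := by ring
        rw [e1, hHp] at h1
        linarith
    · have hx2 : idx e + 1 = m := by omega
      have hf0 : f (idx e + 1) = f 0 := by
        rw [hx2]
        have := hfm 0
        rwa [Nat.zero_add] at this
      rw [hf0, hidx' 0 m0]
      by_cases hy0 : idx e' = 0
      · left
        rw [← hidxf e' he', hy0]
      · right
        have h1 := chordQ (idx e') (idx e) (by omega) (by omega) hq
        rw [hx2] at h1
        rw [hH0]
        linarith
  · rw [Finset.sum_image (fun x hx y hy h => inj x y (Finset.mem_range.1 hx)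
      (Finset.mem_range.1 hy) h)]
    refine le_trans (le_of_eq (Finset.sum_congr rfl fun t ht => ?_)) (hH m ▸ hHm)
    show w (b (idx (f t))) - w (f t) = w (b t) - w (f t)
    rw [hidx' t (Finset.mem_range.1 ht)]

end

end Pool.Agent.Run7.h178.WD
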