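import Pool.Agent.Run7.h178.WD.Exch
import Pool.Agent.Run7.h178.WD.Walk

/-!
# Spanning decompositions of minimal weight
-/

set_option autoImplicit false

namespace Pool.Agent.Run7.h178.WD

open Pool.Agent.N819.UD Pool.Agent.N819.LT Finset

open Classical in
/-- The weight of the complement of `S`. -/
noncomputable def wt {E : Type} [Fintype E] (w : E → ℝ) (S : Set E) : ℝ :=
  ∑ e, if e ∈ S then 0 else w e

/-- `S` is a spanning decomposition and the weight of the complement of every other spanning
decomposition is larger. -/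
def MinDec {V E : Type} [Fintype E] (p q lab : E → V) (w : E → ℝ) (S : Set E) : Prop :=
  (Mix p q lab S ∧ Spans p lab S) ∧
    ∀ S' : Set E, Mix p q lab S' → Spans p lab S' → S' ≠ S → wt w S < wt w S'

section

variable {V E : Type} (p q lab : E → V) (S : Set E) (a : E → V → ZMod 2)

/-- the first half of the exchange graph -/
def PP (f b : E) : Prop := f ∉ S ∧ b ∈ S ∧ a b (p f) + a b (lab f) ≠ 0

/-- the second half of the exchange graph -/
def QQ (b f : E) : Prop := b ∈ S ∧ f ∉ S ∧ a f (q b) + a f (lab b) ≠ 0

variable [Fintype V] [Fintype E] [DecidableEq V] [DecidableEq E]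

theorem wt_swap (w : E → ℝ) (W : Finset E) (β : E → E) (hWS : ∀ e ∈ W, e ∉ S)
    (hβ : ∀ e ∈ W, β e ∈ S) (hinj : ∀ e ∈ W, ∀ e' ∈ W, β e = β e' → e = e') :
    wt w (swap S W β) = wt w S + ∑ e ∈ W, (w (β e) - w e) := by
  classical
  have h0 : ∀ e, (if e ∈ swap S W β then (0 : ℝ) else w e) =
      (if e ∈ S then 0 else w e) + (if e ∈ W.image β then w e else 0) - (if e ∈ W then w e else 0) := by
    intro e
    by_cases h1 : e ∈ W
    · have h2 : e ∈ swap S W β := Or.inr h1
      have h3 : e ∉ W.image β := by
        intro h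
        obtain ⟨e1, he1, rfl⟩ := Finset.mem_image.1 h
        exact hWS _ h1 (hβ e1 he1)
      simp only [h1, h2, h3, hWS e h1, if_true, if_false]
      ring
    · by_cases h2 : e ∈ S
      · by_cases h3 : e ∈ W.image β
        · have h4 : e ∉ swap S W β := by
            rintro (h | h)
            · obtain ⟨e1, he1, he⟩ := Finset.mem_image.1 h3
              exact h.2 e1 he1 he.symm
            · exact h1 h
          simp only [h1, h2, h3, h4, if_true, if_false]
          ring
        · have h4 : e ∈ swap S W β :=
            Or.inl ⟨h2, fun e1 he1 h => h3 (Finset.mem_image.2 ⟨e1, he1, h.symm⟩)⟩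
          simp only [h1, h2, h3, h4, if_true, if_false]
          ring
      · have h3 : e ∉ W.image β := by
          intro h
          obtain ⟨e1, he1, rfl⟩ := Finset.mem_image.1 h
          exact h2 (hβ e1 he1)
        have h4 : e ∉ swap S W β := by
          rintro (h | h)
          · exact h2 h.1
          · exact h1 h
        simp only [h1, h2, h3, h4, if_false]
        ring
  unfold wt
  rw [Finset.sum_congr rfl fun e _ => h0 e, Finset.sum_sub_distrib, Finset.sum_add_distrib,
    Finset.sum_ite_mem, Finset.sum_ite_mem, Finset.univ_inter, Finset.univ_inter,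
    Finset.sum_image (fun x hx y hy h => hinj x hx y hy h), Finset.sum_sub_distrib]
  ring

/-- **There is no closed walk of nonpositive cost in the exchange graph.** -/
theorem no_walk (w : E → ℝ) (hm : MinDec p q lab w S)
    (ha : ∀ f e, a f (mp p q S e) + a f (lab e) = if e = f then 1 else 0)
    (hexp : ∀ (v : V → ZMod 2) (x y : V),
      v x + v y = ∑ f, (v (mp p q S f) + v (lab f)) * (a f x + a f y)) :
    ¬ ∃ m, CW (PP p lab S a) (QQ q lab S a) w m := by
  intro hex
  obtain ⟨W, β, σ, g, h, hW, hσ, hσi, hP1, hP2, hQ1, hQ2, hc⟩ := walk hex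
  have hβi : ∀ e ∈ W, ∀ e' ∈ W, β e = β e' → e = e' := by
    intro e he e' he' heq
    have h1 := hP1 e he
    rw [heq] at h1
    have h2 := hP1 e' he'
    rw [← heq] at h2
    rcases hP2 e he e' he' h1 with h3 | h3
    · exact h3.symm
    · rcases hP2 e' he' e he h2 with h4 | h4
      · exact h4
      · exact absurd h4 (not_lt.2 h3.le)
  obtain ⟨h1, h2⟩ := exch p q lab S a W β σ g h hm.1.2 ha hexp (fun e he => (hP1 e he).1)
    (fun e he => (hP1 e he).2.1) hσ hσi (fun e he => (hP1 e he).2.2)
    (fun e he e' he' hne => hP2 e he e' he' ⟨(hP1 e he).1, (hP1 e' he').2.1, hne⟩)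
    (fun e he => (hQ1 e he).2.2)
    (fun e he e' he' hne => hQ2 e he e' he' ⟨(hP1 e he).2.1, (hP1 e' he').1, hne⟩)
  have h3 : swap S W β ≠ S := by
    intro h
    obtain ⟨e, he⟩ := hW
    have h4 : e ∈ swap S W β := Or.inr he
    rw [h] at h4
    exact (hP1 e he).1 h4
  have h4 := hm.2 _ h1 h2 h3
  rw [wt_swap S w W β (fun e he => (hP1 e he).1) (fun e he => (hP1 e he).2.1) hβi] at h4
  linarith

/-- a nonempty finite set of states, every one with a successor in the set, contains a closed walk
of cost zero -/
theorem no_states (w : E → ℝ) (hm : MinDec p q lab w S)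
    (ha : ∀ f e, a f (mp p q S e) + a f (lab e) = if e = f then 1 else 0)
    (hexp : ∀ (v : V → ZMod 2) (x y : V),
      v x + v y = ∑ f, (v (mp p q S f) + v (lab f)) * (a f x + a f y))
    {X : Type} (A : Set X) (hA : A.Finite) (hne : A.Nonempty) (fe : X → E) (pos : X → ℝ)
    (h : ∀ x ∈ A, ∃ y ∈ A, ∃ b, PP p lab S a (fe x) b ∧ QQ q lab S a b (fe y) ∧
      pos y - pos x = w b - w (fe y)) : False := by
  classical
  obtain ⟨x0, hx0⟩ := hne
  have hX : Nonempty X := ⟨x0⟩
  have hE : Nonempty E := ⟨fe x0⟩
  choose! nx hnx bb hbb using h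
  let x : ℕ → X := fun n => nx^[n] x0
  have hx : ∀ n, x n ∈ A := by
    intro n
    induction n with
    | zero => exact hx0
    | succ n ih =>
      show nx^[n + 1] x0 ∈ A
      rw [Function.iterate_succ_apply']
      exact hnx _ ih
  have hxs : ∀ n, x (n + 1) = nx (x n) := fun n => Function.iterate_succ_apply' _ _ _
  obtain ⟨i, j, hij, heq⟩ : ∃ i j, i < j ∧ x i = x j := by
    by_contra hcon
    push Not at hcon
    have hinj : Function.Injective x := by
      intro i j hij
      rcases lt_trichotomy i j with h | h | h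
      · exact absurd hij (hcon i j h)
      · exact h
      · exact absurd hij.symm (hcon j i h)
    exact (Set.infinite_of_injective_forall_mem hinj hx) hA
  refine no_walk p q lab S a w hm ha hexp ⟨j - i, by omega, fun t => fe (x (i + t)),
    fun t => bb (x (i + t)), ?_, ?_, ?_, ?_⟩
  · intro t _
    exact (hbb _ (hx _)).1
  · intro t _
    have h1 := (hbb _ (hx (i + t))).2.1
    rw [← hxs] at h1
    exact h1
  · have h1 := (hbb _ (hx (i + (j - i - 1)))).2.1
    rw [← hxs] at h1
    have e1 : i + (j - i - 1) + 1 = j := by omega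
    rw [e1, ← heq] at h1
    exact h1
  · -- the cost is zero
    have hcost : ∀ l, ∑ t ∈ range l, (w (bb (x (i + t))) - w (fe (x (i + t)))) =
        pos (x (i + l)) + w (fe (x (i + l))) - (pos (x i) + w (fe (x i))) := by
      intro l
      induction l with
      | zero => simp
      | succ l ih =>
        rw [Finset.sum_range_succ, ih]
        have h1 := (hbb _ (hx (i + l))).2.2
        rw [← hxs] at h1
        have e1 : i + (l + 1) = i + l + 1 := by ring
        rw [e1]
        linarith
    rw [hcost, show i + (j - i) = j by omega, ← heq]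
    linarith

end

end Pool.Agent.Run7.h178.WD
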