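import Pool.Agent.Run7.h178.WD.Acyc
import Pool.Agent.Run7.h178.WD.Grp

/-!
# Asphericity for labelled oriented trees with one spanning decomposition of minimal weight
-/

set_option autoImplicit false

namespace Pool.Agent.Run7.h178.WD

open Pool.Agent.TH625.LOG Pool.Agent.N819.LT Pool.Agent.N819.UD Finset

section

variable {V E : Type} (p q lab : E → V) (S : Set E) (a : E → V → ZMod 2)
variable [Fintype V] [Fintype E] [DecidableEq V] [DecidableEq E]

/-- the same as `no_states`, for predecessors -/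
theorem no_states' (w : E → ℝ) (hm : MinDec p q lab w S)
    (ha : ∀ f e, a f (mp p q S e) + a f (lab e) = if e = f then 1 else 0)
    (hexp : ∀ (v : V → ZMod 2) (x y : V),
      v x + v y = ∑ f, (v (mp p q S f) + v (lab f)) * (a f x + a f y))
    {X : Type} (A : Set X) (hA : A.Finite) (hne : A.Nonempty) (fe : X → E) (pos : X → ℝ)
    (h : ∀ x ∈ A, ∃ y ∈ A, ∃ b, PP p lab S a (fe y) b ∧ QQ q lab S a b (fe x) ∧
      pos x - pos y = w b - w (fe x)) : False := by
  classical
  obtain ⟨x0, hx0⟩ := hne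
  have hX : Nonempty X := ⟨x0⟩
  choose! nx hnx hbb using h
  let x : ℕ → X := fun n => nx^[n] x0
  have hx : ∀ n, x n ∈ A := by
    intro n
    induction n with
    | zero => exact hx0
    | succ n ih =>
      show nx^[n + 1] x0 ∈ A
      rw [Function.iterate_succ_apply']
      exact hnx _ ih
  have hxs : ∀ n, x (n + 1) = nx (x n) := fun n => Function.iterate_succ_apply' _ _ _
  obtain ⟨i, j, hij, heq⟩ : ∃ i j, i < j ∧ x i = x j := by
    by_contra hcon
    push Not at hcon
    have hinj : Function.Injective x := by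
      intro i j hij
      rcases lt_trichotomy i j with h | h | h
      · exact absurd hij (hcon i j h)
      · exact h
      · exact absurd hij.symm (hcon j i h)
    exact (Set.infinite_of_injective_forall_mem hinj hx) hA
  refine no_states p q lab S a w hm ha hexp {z | ∃ t, i < t ∧ t ≤ j ∧ x t = z} ?_
    ⟨x j, j, hij, le_rfl, rfl⟩ fe pos ?_
  · refine hA.subset ?_
    rintro _ ⟨t, -, -, rfl⟩
    exact hx t
  · rintro _ ⟨t, h1, h2, rfl⟩
    obtain ⟨b, hb1, hb2, hb3⟩ := hbb _ (hx (t - 1))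
    rw [← hxs, show t - 1 + 1 = t by omega] at hb1 hb3
    refine ⟨x (t - 1), ?_, b, hb1, hb2, hb3⟩
    by_cases h3 : t - 1 = i
    · rw [h3, heq]
      exact ⟨j, hij, le_rfl, rfl⟩
    · exact ⟨t - 1, by omega, by omega, rfl⟩

end

/-- **The core.** -/
theorem core' {V E G : Type} [Fintype V] [Fintype E]
    [DecidableEq V] [DecidableEq E] [Group G] (x : V → G) (χ : G →* Multiplicative ℤ)
    (hχ : ∀ v, χ (x v) = Multiplicative.ofAdd 1) (p q lab : E → V)
    (hcard : Fintype.card V = Fintype.card E + 1) (w : E → ℝ)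
    (hpos : ∀ d : ℤ, ∃ pos : G → ℝ, ∀ k, Multiplicative.toAdd (χ k) = d → ∀ e e' : E,
      pos (k * x (lab e) * (x (lab e'))⁻¹) - pos k = w e - w e')
    (S : Set E) (hm : MinDec p q lab w S) (y : E → G → ZMod 2)
    (hfin : {z : E × G | y z.1 z.2 ≠ 0}.Finite) (hy : Ker x p q lab y) : ∀ e g, y e g = 0 := by
  classical
  have hM := hm.1.1
  have hS := hm.1.2
  obtain ⟨a, ha, hexp⟩ := Pool.Agent.N195.UDDUAL.main V E (mp p q S) lab hcard hM
  by_contra hne
  push Not at hne
  obtain ⟨e', g', hne⟩ := hne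
  obtain ⟨⟨e0, g0⟩, h0, hmin0⟩ := Set.exists_min_image {z : E × G | y z.1 z.2 ≠ 0}
    (fun z => Multiplicative.toAdd (χ z.2)) hfin ⟨(e', g'), hne⟩
  have hmin : ∀ e g, y e g ≠ 0 → Multiplicative.toAdd (χ g0) ≤ Multiplicative.toAdd (χ g) :=
    fun e g h => hmin0 (e, g) h
  obtain ⟨pos, hpos⟩ := hpos (Multiplicative.toAdd (χ g0))
  have hmpS : ∀ e ∈ S, mp p q S e = p e := fun e he => by unfold mp; exact if_pos he
  have hmpN : ∀ e, e ∉ S → mp p q S e = q e := fun e he => by unfold mp; exact if_neg he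
  -- the dual functions outside `S` are constant on the initial components
  have hconst : ∀ f, f ∉ S → ∀ e, a f (p e) = a f (lab e) := by
    intro f hf e
    refine z2' _ _ (hS (fun z => a f z = 0) ?_ e)
    intro e he
    have h1 := ha f e
    have hef : e ≠ f := by rintro rfl; exact hf he
    rw [hmpS e he, if_neg hef] at h1
    rw [z2 _ _ h1]
  have claim1 : ∀ b ∈ S, ∀ k, Multiplicative.toAdd (χ k) = Multiplicative.toAdd (χ g0) →
      y b k ≠ 0 → ∃ e, e ∉ S ∧ y e k ≠ 0 ∧ a b (p e) + a b (lab e) ≠ 0 := by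
    intro b hb k hk hyb
    by_contra hcon
    push Not at hcon
    have h1 := level_one x χ hχ p q lab y hy _ hmin k hk (a b)
    rw [Finset.sum_eq_single b] at h1
    · have h2 := ha b b
      rw [hmpS b hb, if_pos rfl] at h2
      rw [h2, mul_one] at h1
      exact hyb h1
    · intro e _ he
      by_cases heS : e ∈ S
      · have h2 := ha b e
        rw [hmpS e heS, if_neg he] at h2
        rw [h2, mul_zero]
      · by_cases hye : y e k = 0
        · rw [hye, zero_mul]
        · rw [hcon e heS hye, mul_zero]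
    · intro h; exact absurd (Finset.mem_univ _) h
  let A : Set (E × G) := {z | z.1 ∉ S ∧ Multiplicative.toAdd (χ z.2) = Multiplicative.toAdd (χ g0) ∧
    y z.1 z.2 ≠ 0}
  have hA : A.Nonempty := by
    by_cases he0 : e0 ∈ S
    · obtain ⟨e, h1, h2, -⟩ := claim1 e0 he0 g0 rfl h0
      exact ⟨(e, g0), h1, rfl, h2⟩
    · exact ⟨(e0, g0), he0, rfl, h0⟩
  refine no_states' p q lab S a w hm ha hexp A (hfin.subset fun z hz => hz.2.2) hA
    (fun z => z.1) (fun z => pos z.2) ?_
  rintro ⟨f, k⟩ ⟨hf, hk, hyk⟩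
  simp only at hf hk hyk
  have h1 := level_two x χ hχ p q lab y hy _ hmin (a f) (hconst f hf) (k * x (lab f)) (by
    rw [map_mul, hχ, ← hk]; rfl)
  have hex : ∃ b ∈ S, (a f (lab b) + a f (q b)) * y b (k * x (lab f) * (x (lab b))⁻¹) ≠ 0 := by
    by_contra hcon
    push Not at hcon
    rw [Finset.sum_eq_single f] at h1
    · rw [mul_inv_cancel_right] at h1
      have h2 := ha f f
      rw [hmpN f hf, if_pos rfl, add_comm] at h2
      rw [h2, one_mul] at h1
      exact hyk h1
    · intro e _ he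
      by_cases heS : e ∈ S
      · exact hcon e heS
      · have h2 := ha f e
        rw [hmpN e heS, if_neg he, add_comm] at h2
        rw [h2, zero_mul]
    · intro h; exact absurd (Finset.mem_univ _) h
  obtain ⟨b, hb, hbn⟩ := hex
  have hb1 := left_ne_zero_of_mul hbn
  have hb2 := right_ne_zero_of_mul hbn
  have hdeg : Multiplicative.toAdd (χ (k * x (lab f) * (x (lab b))⁻¹)) =
      Multiplicative.toAdd (χ g0) := by
    rw [deg_inv x χ hχ, map_mul, hχ, ← hk]
    simp
  obtain ⟨e1, g1, g2, g3⟩ := claim1 b hb _ hdeg hb2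
  refine ⟨(e1, k * x (lab f) * (x (lab b))⁻¹), ⟨g1, hdeg, g2⟩, b, ⟨g1, hb, g3⟩,
    ⟨hb, hf, by rwa [add_comm]⟩, ?_⟩
  have h5 := hpos k hk f b
  show pos k - pos (k * x (lab f) * (x (lab b))⁻¹) = w b - w f
  linarith

end Pool.Agent.Run7.h178.WD
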