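import Pool.Agent.Run7.h178.WD.Asph

/-!
# Asphericity: assembly
-/

set_option autoImplicit false

namespace Pool.Agent.Run7.h178.WD

open Pool.Agent.TH625.LOG Pool.Agent.N819.LT Pool.Agent.N819.UD Finset

variable {V E : Type}

/-- restriction of a cocycle to a subgraph -/
theorem IsCocycle.sub {L : LOG V E} {s : V → ℤ → ℝ} (hs : IsCocycle L s) (R : Set E) :
    IsCocycle (sub L R) s := fun e n => hs e n

theorem chi_hgt (L : LOG V E) (s : V → ℤ → ℝ) (hs : IsCocycle L s) (g : L.G) :
    Multiplicative.toAdd (chi L g) = hgt (rho L s hs g) := (hgt_rho L s hs g).symm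

variable [Fintype V] [Fintype E] [DecidableEq V] [DecidableEq E]

theorem asph_ini (L : LOG V E) (hcard : Fintype.card V = Fintype.card E + 1) (s : V → ℤ → ℝ)
    (hs : IsCocycle L s) (S : Set E)
    (hm : MinDec L.ini L.ter L.lab (fun e => s (L.lab e) 0) S) (R : Set E)
    (c : (R × (sub L R).G) →₀ ℤ) (hc : (sub L R).bdry c = 0) : c = 0 := by
  classical
  refine Pool.Agent.N249.UD_MOD2.main V R (sub L R) ?_ c hc
  intro y hfin hy e g
  have h := core' (sub L R).gen (chi (sub L R)) (chi_gen _) L.ini L.ter L.lab hcard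
    (fun e => s (L.lab e) 0) (fun d => by
      refine ⟨fun k => po (-d) (rho (sub L R) s (hs.sub R) k), fun k hk e e' => ?_⟩
      simp only [map_mul, map_inv, rho_gen]
      rw [po_change, ← chi_hgt, hk]
      simp) S hm
    (ext R y) (fin_ext R y hfin) (ker_ext R _ L.ini L.ter L.lab y hy) e g
  rwa [ext_mem] at h

theorem asph_ter (L : LOG V E) (hcard : Fintype.card V = Fintype.card E + 1) (s : V → ℤ → ℝ)
    (hs : IsCocycle L s) (S : Set E)
    (hm : MinDec L.ter L.ini L.lab (fun e => s (L.lab e) 0) S) (R : Set E)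
    (c : (R × (sub L R).G) →₀ ℤ) (hc : (sub L R).bdry c = 0) : c = 0 := by
  classical
  refine Pool.Agent.N249.UD_MOD2.main V R (sub L R) ?_ c hc
  intro y hfin hy e g
  let M := Pool.Agent.N819.LT.sub L R
  let y' : R → M.G → ZMod 2 := fun e g => y e (g * (M.gen (M.lab e))⁻¹ * (M.gen (M.ini e))⁻¹)
  have hy' : Ker (fun v => (M.gen v)⁻¹) M.ter M.ini M.lab y' := ker_rev M y hy
  have hfin' : {z : R × M.G | y' z.1 z.2 ≠ 0}.Finite := by
    refine (hfin.preimage (f := fun z : R × M.G =>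
      (z.1, z.2 * (M.gen (M.lab z.1))⁻¹ * (M.gen (M.ini z.1))⁻¹)) ?_).subset ?_
    · rintro ⟨e1, g1⟩ _ ⟨e2, g2⟩ _ h
      simp only [Prod.mk.injEq] at h
      obtain ⟨h1, h3⟩ := h
      subst h1
      simp only [mul_left_inj] at h3
      rw [h3]
    · intro z hz
      exact hz
  have hχ : ∀ v, (chi M)⁻¹ ((M.gen v)⁻¹) = Multiplicative.ofAdd 1 := by
    intro v
    rw [MonoidHom.inv_apply, map_inv, inv_inv, chi_gen]
  have h := core' (fun v => (M.gen v)⁻¹) (chi M)⁻¹ hχ L.ter L.ini L.lab hcard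
    (fun e => s (L.lab e) 0) (fun d => by
      refine ⟨fun k => - po (1 + d) (rho M s (hs.sub R) k), fun k hk e e' => ?_⟩
      have hk' : hgt (rho M s (hs.sub R) k) = -d := by
        rw [← chi_hgt, ← hk]
        show _ = - - _
        rw [neg_neg]
      have h1 := po_change' s (rho M s (hs.sub R) k) (L.lab e) (L.lab e') (1 + d)
      rw [hk', show 1 + d + -d - 1 = (0 : ℤ) by ring] at h1
      simp only [map_mul, map_inv, rho_gen, inv_inv]
      linarith) S hm
    (ext R y') (fin_ext R y' hfin') (ker_ext R _ L.ter L.ini L.lab y' hy') e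
    (g * M.gen (M.ini e) * M.gen (M.lab e))
  rw [ext_mem] at h
  have h3 : y' e (g * M.gen (M.ini e) * M.gen (M.lab e)) = y e g := by
    change y e (g * M.gen (M.ini e) * M.gen (M.lab e) * (M.gen (M.lab e))⁻¹ * (M.gen (M.ini e))⁻¹) = _
    rw [mul_inv_cancel_right, mul_inv_cancel_right]
  rwa [h3] at h

end Pool.Agent.Run7.h178.WD
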