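import Pool.Agent.N819.UD.LI

/-!
# Exchange along a triangular alternating cycle

The set `S` is a spanning decomposition with dual functions `a`; the elements of `W` outside `S` are
exchanged with the elements `β e` of `S`. In `Pool.Agent.N281.UDEXCH` the alternating cycle is
chordless; here the two matrices of the exchange are only triangular, for two orderings given by real
functions `g`, `h`.
-/

set_option autoImplicit false

namespace Pool.Agent.Run7.h178.WD

open Pool.Agent.N819.UD Pool.Agent.N819.LT Pool.Agent.N281.UDEXCH Finset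

/-- the set obtained by the exchange -/
def swap {E : Type} (S : Set E) (W : Finset E) (β : E → E) : Set E :=
  {e | (e ∈ S ∧ ∀ e1 ∈ W, e ≠ β e1) ∨ e ∈ W}

open Classical in
/-- exchange along a triangular alternating cycle -/
theorem exch {V E : Type} [Fintype V] [Fintype E] [DecidableEq V] [DecidableEq E]
    (p q lab : E → V) (S : Set E) (a : E → V → ZMod 2) (W : Finset E) (β σ : E → E) (g h : E → ℝ)
    (hsp : Spans p lab S)
    (hdual : ∀ f e, a f (mp p q S e) + a f (lab e) = if e = f then 1 else 0)
    (hexp : ∀ (v : V → ZMod 2) (x y : V),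
      v x + v y = ∑ f, (v (mp p q S f) + v (lab f)) * (a f x + a f y))
    (hWS : ∀ e ∈ W, e ∉ S) (hβ : ∀ e ∈ W, β e ∈ S) (hσ : ∀ e ∈ W, σ e ∈ W)
    (hinj : ∀ e ∈ W, ∀ e' ∈ W, σ e = σ e' → e = e')
    (hP1 : ∀ e ∈ W, a (β e) (p e) + a (β e) (lab e) ≠ 0)
    (hP2 : ∀ e ∈ W, ∀ e' ∈ W, a (β e') (p e) + a (β e') (lab e) ≠ 0 → e' = e ∨ g e < g e')
    (hQ1 : ∀ e ∈ W, a (σ e) (q (β e)) + a (σ e) (lab (β e)) ≠ 0)
    (hQ2 : ∀ e ∈ W, ∀ e' ∈ W, a e' (q (β e)) + a e' (lab (β e)) ≠ 0 → e' = σ e ∨ h e' < h (σ e)) :
    Mix p q lab (swap S W β) ∧ Spans p lab (swap S W β) := by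
  set S' : Set E := swap S W β with hS'def
  have hS' : ∀ e, e ∈ S' ↔ ((e ∈ S ∧ ∀ e1 ∈ W, e ≠ β e1) ∨ e ∈ W) := fun e => Iff.rfl
  have mpS : ∀ e, e ∈ S → mp p q S e = p e := fun e he => if_pos he
  have mpN : ∀ e, e ∉ S → mp p q S e = q e := fun e he => if_neg he
  -- the key step
  have key : ∀ v : V → ZMod 2, (∀ e ∈ S', v (p e) = v (lab e)) →
      ∀ b ∈ S, v (mp p q S b) + v (lab b) = 0 := by
    intro v hv
    have hin : ∀ b ∈ S, (∀ e1 ∈ W, b ≠ β e1) → v (mp p q S b) + v (lab b) = 0 := by
      intro b hb h
      rw [mpS b hb, hv b ((hS' b).2 (Or.inl ⟨hb, h⟩))]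
      exact z_self _
    have hW0 : ∀ e1 ∈ W, v (mp p q S (β e1)) + v (lab (β e1)) = 0 := by
      by_contra hcon
      push Not at hcon
      obtain ⟨e0, he0, hne0⟩ := hcon
      obtain ⟨e1, he1', hmax⟩ := (W.filter fun e =>
        v (mp p q S (β e)) + v (lab (β e)) ≠ 0).exists_max_image g
        ⟨e0, Finset.mem_filter.2 ⟨he0, hne0⟩⟩
      obtain ⟨he1, hne1⟩ := Finset.mem_filter.1 he1'
      apply hne1
      have h1 : v (p e1) + v (lab e1) = 0 := by
        rw [hv e1 ((hS' e1).2 (Or.inr he1))]
        exact z_self _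
      rw [hexp v (p e1) (lab e1), Finset.sum_eq_single (β e1)] at h1
      · exact z_mul _ _ h1 (hP1 e1 he1)
      · intro f _ hf
        by_cases hfS : f ∈ S
        · by_cases hfW : ∃ e2 ∈ W, f = β e2
          · obtain ⟨e2, he2, rfl⟩ := hfW
            by_cases h2 : a (β e2) (p e1) + a (β e2) (lab e1) = 0
            · rw [h2, mul_zero]
            · rcases hP2 e1 he1 e2 he2 h2 with h3 | h3
              · exact absurd (by rw [h3]) hf
              · have h4 : v (mp p q S (β e2)) + v (lab (β e2)) = 0 := by
                  by_contra h5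
                  exact absurd (hmax e2 (Finset.mem_filter.2 ⟨he2, h5⟩)) (not_le.2 h3)
                rw [h4, zero_mul]
          · rw [hin f hfS (fun e2 he2 h3 => hfW ⟨e2, he2, h3⟩), zero_mul]
        · have h2 : a f (p e1) + a f (lab e1) = 0 := by
            apply z_iff
            refine hsp (fun x => a f x = 1) ?_ e1
            intro e he
            have h3 := hdual f e
            have hne : ¬ e = f := by
              intro h
              rw [h] at he
              exact hfS he
            rw [mpS e he, if_neg hne] at h3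
            have h4 := z_eq _ _ h3
            constructor
            · intro h5
              rw [← h4]
              exact h5
            · intro h5
              change a f (p e) = 1
              rw [h4]
              exact h5
          rw [h2, mul_zero]
      · intro h
        exact absurd (Finset.mem_univ _) h
    intro b hb
    by_cases hbW : ∃ e1 ∈ W, b = β e1
    · obtain ⟨e1, he1, rfl⟩ := hbW
      exact hW0 e1 he1
    · exact hin b hb (fun e1 he1 h => hbW ⟨e1, he1, h⟩)
  refine ⟨?_, ?_⟩
  · -- connectedness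
    have mpS' : ∀ e, e ∈ S' → mp p q S' e = p e := fun e he => if_pos he
    have mpN' : ∀ e, e ∉ S' → mp p q S' e = q e := fun e he => if_neg he
    intro x0 y0
    let u : V → ZMod 2 := fun x => if Relation.ReflTransGen (Joined (mp p q S') lab) x0 x then 1 else 0
    have hu : ∀ e, u (mp p q S' e) = u (lab e) := by
      intro e
      have h3 : Relation.ReflTransGen (Joined (mp p q S') lab) x0 (mp p q S' e) ↔
          Relation.ReflTransGen (Joined (mp p q S') lab) x0 (lab e) :=
        ⟨fun h => h.tail ⟨e, Or.inl ⟨rfl, rfl⟩⟩, fun h => h.tail ⟨e, Or.inr ⟨rfl, rfl⟩⟩⟩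
      change (if _ then (1 : ZMod 2) else 0) = if _ then (1 : ZMod 2) else 0
      by_cases h4 : Relation.ReflTransGen (Joined (mp p q S') lab) x0 (mp p q S' e)
      · rw [if_pos h4, if_pos (h3.1 h4)]
      · rw [if_neg h4, if_neg (fun h => h4 (h3.2 h))]
    have hin : ∀ b ∈ S, u (mp p q S b) + u (lab b) = 0 := by
      apply key u
      intro e he
      rw [← mpS' e he]
      exact hu e
    have hout : ∀ f, f ∉ S → f ∉ W → u (mp p q S f) + u (lab f) = 0 := by
      intro f hf hfW
      have h1 : f ∉ S' := by
        intro h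
        rcases (hS' f).1 h with h2 | h2
        · exact hf h2.1
        · exact hfW h2
      have h2 := hu f
      rw [mpN' f h1] at h2
      rw [mpN f hf, h2]
      exact z_self _
    have hsurj : ∀ e1 ∈ W, ∃ e2 ∈ W, σ e2 = e1 := by
      have h1 : Set.SurjOn σ (W : Set E) (W : Set E) :=
        Finset.surjOn_of_injOn_of_card_le σ (fun e he => hσ e he)
          (fun e he e' he' h => hinj e he e' he' h) le_rfl
      intro e1 he1
      obtain ⟨e2, he2, h2⟩ := h1 he1
      exact ⟨e2, he2, h2⟩
    have hW1 : ∀ f ∈ W, u (mp p q S f) + u (lab f) = 0 := by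
      by_contra hcon
      push Not at hcon
      obtain ⟨e0, he0, hne0⟩ := hcon
      obtain ⟨f, hf', hmin⟩ := (W.filter fun e =>
        u (mp p q S e) + u (lab e) ≠ 0).exists_min_image h
        ⟨e0, Finset.mem_filter.2 ⟨he0, hne0⟩⟩
      obtain ⟨hfW, hne1⟩ := Finset.mem_filter.1 hf'
      obtain ⟨e2, he2, rfl⟩ := hsurj f hfW
      apply hne1
      have hb : β e2 ∉ S' := by
        intro h
        rcases (hS' _).1 h with h2 | h2
        · exact h2.2 e2 he2 rfl
        · exact hWS _ h2 (hβ e2 he2)
      have h1 : u (q (β e2)) + u (lab (β e2)) = 0 := by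
        rw [← mpN' _ hb, hu]
        exact z_self _
      rw [hexp u (q (β e2)) (lab (β e2)), Finset.sum_eq_single (σ e2)] at h1
      · exact z_mul _ _ h1 (hQ1 e2 he2)
      · intro g' _ hg
        by_cases hgS : g' ∈ S
        · rw [hin g' hgS, zero_mul]
        · by_cases hgW : g' ∈ W
          · by_cases h2 : a g' (q (β e2)) + a g' (lab (β e2)) = 0
            · rw [h2, mul_zero]
            · rcases hQ2 e2 he2 g' hgW h2 with h3 | h3
              · exact absurd h3 hg
              · have h4 : u (mp p q S g') + u (lab g') = 0 := by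
                  by_contra h5
                  exact absurd (hmin g' (Finset.mem_filter.2 ⟨hgW, h5⟩)) (not_le.2 h3)
                rw [h4, zero_mul]
          · rw [hout g' hgS hgW, zero_mul]
      · intro h
        exact absurd (Finset.mem_univ _) h
    have hall : ∀ f, u (mp p q S f) + u (lab f) = 0 := by
      intro f
      by_cases hf : f ∈ S
      · exact hin f hf
      · by_cases hfW : f ∈ W
        · exact hW1 f hfW
        · exact hout f hf hfW
    have h1 : u x0 + u y0 = 0 := by
      rw [hexp u x0 y0]
      refine Finset.sum_eq_zero fun f _ => ?_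
      rw [hall f, zero_mul]
    have h2 : u x0 = u y0 := z_eq _ _ h1
    have h3 : u x0 = 1 := if_pos Relation.ReflTransGen.refl
    by_contra h4
    have h5 : u y0 = 0 := if_neg h4
    rw [h3, h5] at h2
    exact one_ne_zero h2
  · -- spanning
    intro P hPP
    apply hsp P
    intro b hb
    let v : V → ZMod 2 := fun x => if P x then 1 else 0
    have hv : ∀ e ∈ S', v (p e) = v (lab e) := by
      intro e he
      have h1 := hPP e he
      change (if _ then (1 : ZMod 2) else 0) = if _ then (1 : ZMod 2) else 0
      by_cases h4 : P (p e)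
      · rw [if_pos h4, if_pos (h1.1 h4)]
      · rw [if_neg h4, if_neg (fun h => h4 (h1.2 h))]
    have h1 := key v hv b hb
    rw [mpS b hb] at h1
    have h2 : v (p b) = v (lab b) := z_eq _ _ h1
    constructor
    · intro h3
      by_contra h4
      have h5 : v (p b) = 1 := if_pos h3
      have h6 : v (lab b) = 0 := if_neg h4
      rw [h5, h6] at h2
      exact one_ne_zero h2
    · intro h3
      by_contra h4
      have h5 : v (lab b) = 1 := if_pos h3
      have h6 : v (p b) = 0 := if_neg h4
      rw [h5, h6] at h2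
      exact zero_ne_one h2

end Pool.Agent.Run7.h178.WD
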