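import Pool.Agent.Run7.h178.WD.Level

/-!
# Local indicability for labelled oriented trees with one spanning decomposition of minimal weight
-/

set_option autoImplicit false

namespace Pool.Agent.Run7.h178.WD

open Pool.Agent.TH625.LOG Pool.Agent.N819.LT Pool.Agent.N819.UD Finset

section

variable {V E : Type} [Fintype V] [Fintype E] [DecidableEq V] [DecidableEq E]

theorem hgt_mul_gen {V : Type} (s : V → ℤ → ℝ) (v : V) (a : AA) : hgt (a * aGen s v) = hgt a + 1 := by
  rw [hgt_mul, hgt_gen]

/-- all levels from `N - n` on -/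
theorem levels (L : LOG V E) (hcard : Fintype.card V = Fintype.card E + 1) (s : V → ℤ → ℝ)
    (S : Set E)
    (hm : MinDec L.ini L.ter L.lab (fun e => s (L.lab e) 0) S) (R : Set E)
    (Z : Finset AA) (N : ℤ) (hN : ∀ a ∈ Z, hgt a < N) (n : ℕ) :
    ∃ c : V → AA → FreeGroup V, (∀ v a, (sub L R).pr (c v a) = (sub L R).gen v) ∧
      ∀ a ∈ Z, N - n ≤ hgt a → ∀ e ∈ R, (c (L.lab e) a)⁻¹ * c (L.ini e) a =
        c (L.ter e) (a * aGen s (L.lab e)) * (c (L.lab e) (a * aGen s (L.ini e)))⁻¹ := by
  classical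
  induction n with
  | zero =>
    refine ⟨fun v _ => FreeGroup.of v, fun v a => rfl, fun a ha h => ?_⟩
    have := hN a ha
    simp only [Nat.cast_zero, sub_zero] at h
    omega
  | succ n ih =>
    obtain ⟨c, hc, hrel⟩ := ih
    obtain ⟨g, d, hg, hge, hd, hlev⟩ := level L hcard s S hm R (N - n - 1)
      (Z.filter fun a => hgt a = N - n - 1) (fun a ha => (Finset.mem_filter.1 ha).2) c hc
    obtain ⟨c', hc'⟩ : ∃ c' : V → AA → FreeGroup V, ∀ v a, c' v a =
        if hgt a = N - n - 1 then d v a else if hgt a = N - n then g v a * c v a else c v a :=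
      ⟨_, fun _ _ => rfl⟩
    refine ⟨c', fun v a => ?_, fun a ha hle e he => ?_⟩
    · rw [hc']
      split_ifs with h1 h2
      · exact hd v a
      · rw [map_mul, hg, one_mul, hc]
      · exact hc v a
    · push_cast at hle
      by_cases h1 : hgt a = N - n - 1
      · have e1 : ∀ v, c' v a = d v a := fun v => by rw [hc', if_pos h1]
        have e2 : ∀ v v', c' v (a * aGen s v') = g v (a * aGen s v') * c v (a * aGen s v') := by
          intro v v'
          have h2 : hgt (a * aGen s v') = N - n := by rw [hgt_mul_gen, h1]; ring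
          rw [hc', if_neg (by omega), if_pos h2]
        rw [e1, e1, e2, e2]
        exact hlev a (Finset.mem_filter.2 ⟨ha, h1⟩) e he
      · have e2 : ∀ v v', c' v (a * aGen s v') = c v (a * aGen s v') := by
          intro v v'
          have h2 := hgt_mul_gen s v' a
          rw [hc', if_neg (by omega), if_neg (by omega)]
        rw [e2, e2, ← hrel a ha (by omega) e he]
        by_cases h2 : hgt a = N - n
        · have e1 : ∀ v, c' v a = g v a * c v a := fun v => by rw [hc', if_neg h1, if_pos h2]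
          rw [e1, e1, hge e a]
          group
        · have e1 : ∀ v, c' v a = c v a := fun v => by rw [hc', if_neg h1, if_neg h2]
          rw [e1, e1]

/-- a cocycle which kills finitely many cells of the covering -/
theorem exists_cocycle (L : LOG V E) (hcard : Fintype.card V = Fintype.card E + 1) (s : V → ℤ → ℝ)
    (hs : IsCocycle L s) (S : Set E)
    (hm : MinDec L.ini L.ter L.lab (fun e => s (L.lab e) 0) S) (R : Set E)
    (hsR : IsCocycle (sub L R) s) (Q : Finset (R × AA)) :
    ∃ C : (sub L R).Coc (rho (sub L R) s hsR), ∀ d ∈ Q, C.c d.2 ((sub L R).rel d.1) = 1 := by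
  classical
  let Z : Finset AA := Q.image fun d => d.2
  obtain ⟨N, hN⟩ : ∃ N : ℤ, ∀ a ∈ Z, hgt a < N := by
    obtain ⟨M, hM⟩ := (Z.image hgt).bddAbove
    refine ⟨M + 1, fun a ha => ?_⟩
    have h0 : hgt a ≤ M := hM (Finset.mem_coe.2 (Finset.mem_image_of_mem _ ha))
    omega
  obtain ⟨n, hn⟩ : ∃ n : ℕ, ∀ a ∈ Z, N - n ≤ hgt a := by
    obtain ⟨M, hM⟩ := (Z.image hgt).bddBelow
    refine ⟨(N - M).toNat, fun a ha => ?_⟩
    have h0 : M ≤ hgt a := hM (Finset.mem_coe.2 (Finset.mem_image_of_mem _ ha))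
    have := Int.self_le_toNat (N - M)
    omega
  obtain ⟨c, hc, hrel⟩ := levels L hcard s S hm R Z N hN n
  obtain ⟨C, hC⟩ := exists_lift (sub L R) (rho (sub L R) s hsR) c hc
  refine ⟨C, ?_⟩
  rintro ⟨e, b⟩ hd
  have hb : b ∈ Z := Finset.mem_image_of_mem (fun d : R × AA => d.2) hd
  have h1 := hrel b hb (hn b hb) e e.2
  have s0 : (sub L R).sideA (rho (sub L R) s hsR) (e, b) 0 = (L.ini e, b) := by
    show (L.ini e, b * rho (sub L R) s hsR 1) = (L.ini e, b)
    rw [map_one, mul_one]
  have s1 : (sub L R).sideA (rho (sub L R) s hsR) (e, b) 1 = (L.lab e, b * aGen s (L.ini e)) := by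
    show (L.lab e, b * rho (sub L R) s hsR ((sub L R).gen (L.ini e))) = _
    rw [rho_gen]
  have s2 : (sub L R).sideA (rho (sub L R) s hsR) (e, b) 2 = (L.lab e, b) := by
    show (L.lab e, b * rho (sub L R) s hsR 1) = (L.lab e, b)
    rw [map_one, mul_one]
  have s3 : (sub L R).sideA (rho (sub L R) s hsR) (e, b) 3 = (L.ter e, b * aGen s (L.lab e)) := by
    show (L.ter e, b * rho (sub L R) s hsR ((sub L R).gen (L.lab e))) = _
    rw [rho_gen]
  show C.c b ((sub L R).rel e) = 1
  rw [C.rel, s0, s1, s2, s3]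
  simp only [hC]
  have h2 : c (L.ini e) b = c (L.lab e) b * (c (L.ter e) (b * aGen s (L.lab e)) *
      (c (L.lab e) (b * aGen s (L.ini e)))⁻¹) := by
    rw [← h1]
    group
  rw [h2]
  group

theorem li_ini' (L : LOG V E) (hcard : Fintype.card V = Fintype.card E + 1) (s : V → ℤ → ℝ)
    (hs : IsCocycle L s) (S : Set E)
    (hm : MinDec L.ini L.ter L.lab (fun e => s (L.lab e) 0) S) (R : Set E) :
    LocInd (sub L R).G := by
  have hsR : IsCocycle (sub L R) s := fun e n => hs e n
  refine LocInd.ext locInd_AA (rho (sub L R) s hsR) fun H hH hne hk => ?_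
  exact Pool.Agent.N344.UEK.main V R AA (sub L R) (rho (sub L R) s hsR)
    (exists_cocycle L hcard s hs S hm R hsR) H hH hk hne

/-- the reversed cocycle -/
theorem IsCocycle.rev {L : LOG V E} {s : V → ℤ → ℝ} (hs : IsCocycle L s) :
    IsCocycle (revL L) (fun v n => s v (-n)) := by
  intro e n
  have h := hs e (-n - 1)
  show s (L.ter e) (-n) + s (L.lab e) (-(n + 1)) = s (L.lab e) (-n) + s (L.ini e) (-(n + 1))
  rw [show -n - 1 + 1 = -n by ring] at h
  rw [show -(n + 1) = -n - 1 by ring]
  linarith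

theorem li_ter' (L : LOG V E) (hcard : Fintype.card V = Fintype.card E + 1) (s : V → ℤ → ℝ)
    (hs : IsCocycle L s) (S : Set E)
    (hm : MinDec L.ter L.ini L.lab (fun e => s (L.lab e) 0) S) (R : Set E) :
    LocInd (sub L R).G := by
  refine locInd_rev (sub L R) (li_ini' (revL L) hcard (fun v n => s v (-n)) hs.rev S ?_ R)
  have h0 : (fun e => s (L.lab e) (-0)) = fun e => s (L.lab e) 0 := by
    funext e
    rw [neg_zero]
  show MinDec L.ter L.ini L.lab (fun e => s (L.lab e) (-0)) S
  rw [h0]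
  exact hm

end

end Pool.Agent.Run7.h178.WD
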