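import Pool.Agent.Run7.h178.WD.Acyc
import Pool.Agent.Run7.h178.WD.Grp

/-!
# Cocycles on the covering of the metabelian quotient: one level
-/

set_option autoImplicit false

namespace Pool.Agent.Run7.h178.WD

open Pool.Agent.TH625.LOG Pool.Agent.N819.LT Pool.Agent.N819.UD Finset

section

variable {V E : Type} [Fintype V] [Fintype E] [DecidableEq V] [DecidableEq E]

/-- the relation in the group of a subgraph -/
theorem rel_sub (L : LOG V E) (R : Set E) (e : E) (he : e ∈ R) :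
    (sub L R).gen (L.ini e) * (sub L R).gen (L.lab e) =
      (sub L R).gen (L.lab e) * (sub L R).gen (L.ter e) :=
  Pool.Agent.N819.UD.gen_rel (sub L R) ⟨e, he⟩

/-- **One level.** -/
theorem level (L : LOG V E) (hcard : Fintype.card V = Fintype.card E + 1) (s : V → ℤ → ℝ)
    (S : Set E)
    (hm : MinDec L.ini L.ter L.lab (fun e => s (L.lab e) 0) S) (R : Set E) (k : ℤ)
    (Z : Finset AA) (hZ : ∀ a ∈ Z, hgt a = k) (c : V → AA → FreeGroup V)
    (hc : ∀ v a, (sub L R).pr (c v a) = (sub L R).gen v) :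
    ∃ g d : V → AA → FreeGroup V, (∀ v a, (sub L R).pr (g v a) = 1) ∧
      (∀ e a, g (L.ini e) a = g (L.lab e) a) ∧
      (∀ v a, (sub L R).pr (d v a) = (sub L R).gen v) ∧
      ∀ a ∈ Z, ∀ e ∈ R, (d (L.lab e) a)⁻¹ * d (L.ini e) a =
        (g (L.ter e) (a * aGen s (L.lab e)) * c (L.ter e) (a * aGen s (L.lab e))) *
        (g (L.lab e) (a * aGen s (L.ini e)) * c (L.lab e) (a * aGen s (L.ini e)))⁻¹ := by
  classical
  have hT : S_TREE := Pool.Agent.N933.UE.main
  have hM := hm.1.1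
  have hS := hm.1.2
  have hM' : Conn (mp L.ini L.ter S) L.lab := hM
  obtain ⟨α, ha, hexp⟩ := Pool.Agent.N195.UDDUAL.main V E (mp L.ini L.ter S) L.lab hcard hM
  have hmpS : ∀ e ∈ S, mp L.ini L.ter S e = L.ini e := fun e he => by unfold mp; exact if_pos he
  have hmpN : ∀ e, e ∉ S → mp L.ini L.ter S e = L.ter e := fun e he => by
    unfold mp; exact if_neg he
  have hne : Nonempty V := by
    rw [← Fintype.card_pos_iff, hcard]; omega
  obtain ⟨r⟩ := hne
  set M := sub L R with hMdef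
  let K : Subgroup (FreeGroup V) := M.pr.ker
  let I : Type := E × {a : AA // a ∈ Z}
  -- the extended unknowns
  let κe : (I → K) → E → AA → K := fun κ f a' =>
    if h : a' * (aGen s (L.lab f))⁻¹ ∈ Z then κ (f, ⟨_, h⟩) else 1
  have hκe : ∀ (κ : I → K) (f : E) (a : AA) (h : a ∈ Z),
      κe κ f (a * aGen s (L.lab f)) = κ (f, ⟨a, h⟩) := by
    intro κ f a h
    have h1 : a * aGen s (L.lab f) * (aGen s (L.lab f))⁻¹ = a := mul_inv_cancel_right _ _
    have h2 : a * aGen s (L.lab f) * (aGen s (L.lab f))⁻¹ ∈ Z := by rw [h1]; exact h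
    show (if h : a * aGen s (L.lab f) * (aGen s (L.lab f))⁻¹ ∈ Z then κ (f, ⟨_, h⟩) else 1) = _
    rw [dif_pos h2]
    congr 2
    exact Subtype.ext h1
  -- the gauge
  have hint : ∀ (κ : I → K) (a' : AA), ∃ η : V → K, η r = 1 ∧
      ∀ e, (η (L.lab e))⁻¹ * η (mp L.ini L.ter S e) = if e ∈ S then 1 else κe κ e a' :=
    fun κ a' => exists_integral (mp L.ini L.ter S) L.lab hM' hcard r _
  choose G hG1 hG using hint
  have hGS : ∀ κ a', ∀ e, G κ a' (L.ini e) = G κ a' (L.lab e) := by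
    intro κ a' e
    have h1 := hS (fun v => G κ a' v = G κ a' (L.lab e)) (by
      intro e' he'
      have h2 := hG κ a' e'
      rw [hmpS e' he', if_pos he', inv_mul_eq_one] at h2
      rw [h2]) e
    exact h1.2 rfl
  have hGN : ∀ κ a', ∀ f, f ∉ S → (G κ a' (L.lab f))⁻¹ * G κ a' (L.ter f) = κe κ f a' := by
    intro κ a' f hf
    have h2 := hG κ a' f
    rwa [hmpN f hf, if_neg hf] at h2
  let Gf : (I → K) → V → AA → FreeGroup V := fun κ v a' => (G κ a' v : FreeGroup V)
  have hGpr : ∀ κ v a', M.pr (Gf κ v a') = 1 := fun κ v a' => MonoidHom.mem_ker.1 (G κ a' v).2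
  let U : (I → K) → E → AA → FreeGroup V := fun κ e a =>
    (Gf κ (L.ter e) (a * aGen s (L.lab e)) * c (L.ter e) (a * aGen s (L.lab e))) *
      (Gf κ (L.lab e) (a * aGen s (L.ini e)) * c (L.lab e) (a * aGen s (L.ini e)))⁻¹
  let Y : E → FreeGroup V := fun e => (FreeGroup.of (L.lab e))⁻¹ * FreeGroup.of (L.ini e)
  -- the values at the next level
  let W : (I → K) → E → AA → FreeGroup V := fun κ e a => if e ∈ S then
    (if e ∈ R then U κ e a else Gf κ (L.lab e) (a * aGen s (L.lab e)) * Y e *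
      (Gf κ (L.ini e) (a * aGen s (L.ini e)))⁻¹) else
    (FreeGroup.of (L.lab e))⁻¹ * FreeGroup.of (L.ter e)
  have hintD : ∀ (κ : I → K) (a : AA), ∃ η : V → FreeGroup V, η r = 1 ∧
      ∀ e, (η (L.lab e))⁻¹ * η (mp L.ini L.ter S e) = W κ e a :=
    fun κ a => exists_integral (mp L.ini L.ter S) L.lab hM' hcard r _
  choose D0 hD1 hD0 using hintD
  let D : (I → K) → V → AA → FreeGroup V := fun κ v a => FreeGroup.of r * D0 κ a v
  have hDr : ∀ κ a, D κ r a = FreeGroup.of r := fun κ a => by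
    show FreeGroup.of r * D0 κ a r = _
    rw [hD1, mul_one]
  have hD : ∀ κ e a, (D κ (L.lab e) a)⁻¹ * D κ (mp L.ini L.ter S e) a = W κ e a := by
    intro κ e a
    rw [← hD0 κ a e]
    show (FreeGroup.of r * D0 κ a (L.lab e))⁻¹ * (FreeGroup.of r * D0 κ a _) = _
    group
  have hprof : ∀ v, M.pr (FreeGroup.of v) = M.gen v := fun _ => rfl
  have hUpr : ∀ κ e a, e ∈ R → M.pr (U κ e a) = (M.gen (L.lab e))⁻¹ * M.gen (L.ini e) := by
    intro κ e a he
    have h1 := rel_sub L R e he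
    show M.pr ((Gf κ (L.ter e) (a * aGen s (L.lab e)) * c (L.ter e) (a * aGen s (L.lab e))) *
      (Gf κ (L.lab e) (a * aGen s (L.ini e)) * c (L.lab e) (a * aGen s (L.ini e)))⁻¹) = _
    rw [map_mul, map_inv, map_mul, map_mul, hGpr, hGpr, one_mul, one_mul, hc, hc]
    rw [mul_inv_eq_iff_eq_mul, mul_assoc, eq_inv_mul_iff_mul_eq]
    exact h1.symm
  have hWpr : ∀ κ e a, M.pr (W κ e a) = (M.gen (L.lab e))⁻¹ * M.gen (mp L.ini L.ter S e) := by
    intro κ e a
    by_cases he : e ∈ S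
    · rw [hmpS e he]
      by_cases heR : e ∈ R
      · have h1 : W κ e a = U κ e a := by
          show (if e ∈ S then _ else _) = _
          rw [if_pos he, if_pos heR]
        rw [h1, hUpr κ e a heR]
      · have h1 : W κ e a = Gf κ (L.lab e) (a * aGen s (L.lab e)) * Y e *
            (Gf κ (L.ini e) (a * aGen s (L.ini e)))⁻¹ := by
          show (if e ∈ S then _ else _) = _
          rw [if_pos he, if_neg heR]
        rw [h1, map_mul, map_inv, map_mul, hGpr, hGpr, one_mul, inv_one, mul_one]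
        show M.pr ((FreeGroup.of (L.lab e))⁻¹ * FreeGroup.of (L.ini e)) = _
        rw [map_mul, map_inv, hprof, hprof]
    · rw [hmpN e he]
      have h1 : W κ e a = (FreeGroup.of (L.lab e))⁻¹ * FreeGroup.of (L.ter e) := by
        show (if e ∈ S then _ else _) = _
        rw [if_neg he]
      rw [h1, map_mul, map_inv, hprof, hprof]
  have hDpr : ∀ κ v a, M.pr (D κ v a) = M.gen v := by
    intro κ v a
    have h3 := diag hT ha hexp (fun v => M.pr (D κ v a)) M.gen r v (by
      intro f _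
      show (M.pr (D κ (L.lab f) a))⁻¹ * M.pr (D κ (mp L.ini L.ter S f) a) = _
      rw [← map_inv, ← map_mul, hD κ f a, hWpr κ f a])
    have h4 : M.pr (D κ r a) = M.gen r := by rw [hDr]; rfl
    rw [h4] at h3
    exact mul_left_cancel h3
  -- the gauged values
  let Dt : (I → K) → V → AA → FreeGroup V := fun κ v a => D κ v a * Gf κ v (a * aGen s v)
  have hDtpr : ∀ κ v a, M.pr (Dt κ v a) = M.gen v := by
    intro κ v a
    show M.pr (D κ v a * Gf κ v (a * aGen s v)) = _
    rw [map_mul, hGpr, hDpr, mul_one]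
  have hGe : ∀ κ e a', Gf κ (L.ini e) a' = Gf κ (L.lab e) a' := fun κ e a' =>
    congrArg Subtype.val (hGS κ a' e)
  have hDt : ∀ κ e a, (Dt κ (L.lab e) a)⁻¹ * Dt κ (L.ini e) a =
      (Gf κ (L.lab e) (a * aGen s (L.lab e)))⁻¹ * ((D κ (L.lab e) a)⁻¹ * D κ (L.ini e) a) *
        Gf κ (L.ini e) (a * aGen s (L.ini e)) := by
    intro κ e a
    show (D κ (L.lab e) a * Gf κ (L.lab e) (a * aGen s (L.lab e)))⁻¹ *
      (D κ (L.ini e) a * Gf κ (L.ini e) (a * aGen s (L.ini e))) = _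
    group
  have hDtS : ∀ κ e a, e ∈ S → e ∈ R → (Dt κ (L.lab e) a)⁻¹ * Dt κ (L.ini e) a =
      ((Gf κ (L.lab e) (a * aGen s (L.lab e)))⁻¹ * Gf κ (L.ter e) (a * aGen s (L.lab e))) *
        (c (L.ter e) (a * aGen s (L.lab e)) * (c (L.lab e) (a * aGen s (L.ini e)))⁻¹) := by
    intro κ e a he heR
    have h1 := hD κ e a
    rw [hmpS e he] at h1
    have h2 : W κ e a = U κ e a := by
      show (if e ∈ S then _ else _) = _
      rw [if_pos he, if_pos heR]
    rw [hDt, h1, h2, hGe κ e]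
    show _ * ((Gf κ (L.ter e) (a * aGen s (L.lab e)) * c (L.ter e) (a * aGen s (L.lab e))) *
      (Gf κ (L.lab e) (a * aGen s (L.ini e)) * c (L.lab e) (a * aGen s (L.ini e)))⁻¹) * _ = _
    group
  have hDtN : ∀ κ e a, e ∈ S → e ∉ R → (Dt κ (L.lab e) a)⁻¹ * Dt κ (L.ini e) a = Y e := by
    intro κ e a he heR
    have h1 := hD κ e a
    rw [hmpS e he] at h1
    have h2 : W κ e a = Gf κ (L.lab e) (a * aGen s (L.lab e)) * Y e *
            (Gf κ (L.ini e) (a * aGen s (L.ini e)))⁻¹ := by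
      show (if e ∈ S then _ else _) = _
      rw [if_pos he, if_neg heR]
    rw [hDt, h1, h2]
    group
  -- the operator
  let T0 : (I → K) → E → AA → FreeGroup V := fun κ f a =>
    (Dt κ (L.lab f) a)⁻¹ * Dt κ (L.ini f) a *
      (c (L.lab f) (a * aGen s (L.ini f)) * (c (L.ter f) (a * aGen s (L.lab f)))⁻¹)
  have hT0 : ∀ κ f a, f ∈ R → T0 κ f a ∈ K := by
    intro κ f a hf
    rw [MonoidHom.mem_ker]
    show M.pr ((Dt κ (L.lab f) a)⁻¹ * Dt κ (L.ini f) a *
      (c (L.lab f) (a * aGen s (L.ini f)) * (c (L.ter f) (a * aGen s (L.lab f)))⁻¹)) = 1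
    rw [map_mul, map_mul, map_inv, hDtpr, hDtpr, map_mul, map_inv, hc, hc]
    have h1 := rel_sub L R f hf
    rw [← mul_assoc, mul_assoc (M.gen (L.lab f))⁻¹, h1, inv_mul_cancel_left, mul_inv_cancel]
  let T : (I → K) → I → K := fun κ z =>
    if h : z.1 ∉ S ∧ z.1 ∈ R then ⟨T0 κ z.1 z.2.1, hT0 κ z.1 z.2.1 h.2⟩ else 1
  let RR : I → I → Prop := fun z z' => ∃ b, PP L.ini L.lab S α z.1 b ∧ QQ L.ter L.lab S α b z'.1 ∧
    z'.2.1 * aGen s (L.lab z'.1) = z.2.1 * aGen s (L.lab b)
  obtain ⟨κ, hκ⟩ : ∃ κ : I → K, T κ = κ := by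
    refine Pool.Agent.N723.UE_FIX.main I K RR T ?_ ?_
    · intro A hA
      by_contra hcon
      push Not at hcon
      refine no_states L.ini L.ter L.lab S α (fun e => s (L.lab e) 0) hm ha hexp A (Set.toFinite _)
        hA (fun z => z.1) (fun z => po (-k) z.2.1) ?_
      intro z hz
      obtain ⟨z', hz', b, h1, h2, h3⟩ := hcon z hz
      refine ⟨z', hz', b, h1, h2, ?_⟩
      have h4 : z'.2.1 = z.2.1 * aGen s (L.lab b) * (aGen s (L.lab z'.1))⁻¹ := by
        rw [← h3, mul_inv_cancel_right]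
      have h5 := po_change s z.2.1 (L.lab b) (L.lab z'.1) (-k)
      rw [hZ _ z.2.2, neg_add_cancel] at h5
      rw [h4]
      exact h5
    · intro z κ κ' h
      by_cases hz : z.1 ∉ S ∧ z.1 ∈ R
      · have e1 : T κ z = ⟨T0 κ z.1 z.2.1, hT0 κ z.1 z.2.1 hz.2⟩ := dif_pos hz
        have e2 : T κ' z = ⟨T0 κ' z.1 z.2.1, hT0 κ' z.1 z.2.1 hz.2⟩ := dif_pos hz
        rw [e1, e2]
        apply Subtype.ext
        show T0 κ z.1 z.2.1 = T0 κ' z.1 z.2.1
        have key : (Dt κ (L.lab z.1) z.2.1)⁻¹ * Dt κ (L.ini z.1) z.2.1 =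
            (Dt κ' (L.lab z.1) z.2.1)⁻¹ * Dt κ' (L.ini z.1) z.2.1 := by
          refine diag hT ha hexp (fun v => Dt κ v z.2.1) (fun v => Dt κ' v z.2.1) _ _ ?_
          intro b hb
          by_cases hbS : b ∈ S
          · rw [hmpS b hbS]
            by_cases hbR : b ∈ R
            · show (Dt κ (L.lab b) z.2.1)⁻¹ * Dt κ (L.ini b) z.2.1 =
                (Dt κ' (L.lab b) z.2.1)⁻¹ * Dt κ' (L.ini b) z.2.1
              rw [hDtS κ b z.2.1 hbS hbR, hDtS κ' b z.2.1 hbS hbR]
              congr 1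
              have hK : (G κ (z.2.1 * aGen s (L.lab b)) (L.lab b))⁻¹ *
                  G κ (z.2.1 * aGen s (L.lab b)) (L.ter b) =
                  (G κ' (z.2.1 * aGen s (L.lab b)) (L.lab b))⁻¹ *
                  G κ' (z.2.1 * aGen s (L.lab b)) (L.ter b) := by
                refine diag hT ha hexp (G κ (z.2.1 * aGen s (L.lab b)))
                  (G κ' (z.2.1 * aGen s (L.lab b))) _ _ ?_
                intro f hf
                rw [hG, hG]
                by_cases hfS : f ∈ S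
                · rw [if_pos hfS, if_pos hfS]
                · rw [if_neg hfS, if_neg hfS]
                  show (if h : _ then κ (f, ⟨_, h⟩) else 1) = (if h : _ then κ' (f, ⟨_, h⟩) else 1)
                  by_cases hmem : z.2.1 * aGen s (L.lab b) * (aGen s (L.lab f))⁻¹ ∈ Z
                  · rw [dif_pos hmem, dif_pos hmem]
                    refine h (f, ⟨_, hmem⟩) ⟨b, ⟨hz.1, hbS, ?_⟩, ⟨hbS, hfS, ?_⟩, ?_⟩
                    · rwa [add_comm]
                    · rwa [add_comm]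
                    · exact inv_mul_cancel_right _ _
                  · rw [dif_neg hmem, dif_neg hmem]
              exact congrArg Subtype.val hK
            · show (Dt κ (L.lab b) z.2.1)⁻¹ * Dt κ (L.ini b) z.2.1 =
                (Dt κ' (L.lab b) z.2.1)⁻¹ * Dt κ' (L.ini b) z.2.1
              rw [hDtN κ b z.2.1 hbS hbR, hDtN κ' b z.2.1 hbS hbR]
          · exfalso
            apply hb
            rw [const_of ha hS b hbS z.1, z2s]
        show _ * _ = _ * _
        rw [key]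
      · have e1 : T κ z = 1 := dif_neg hz
        have e2 : T κ' z = 1 := dif_neg hz
        rw [e1, e2]
  refine ⟨Gf κ, D κ, hGpr κ, fun e a => hGe κ e a, hDpr κ, ?_⟩
  intro a haZ e heR
  by_cases he : e ∈ S
  · have h1 := hD κ e a
    rw [hmpS e he] at h1
    rw [h1]
    show (if e ∈ S then _ else _) = _
    rw [if_pos he, if_pos heR]
  · have h1 := hGN κ (a * aGen s (L.lab e)) e he
    rw [hκe κ e a haZ] at h1
    have h2 : T κ (e, ⟨a, haZ⟩) = ⟨T0 κ e a, hT0 κ e a heR⟩ := dif_pos ⟨he, heR⟩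
    replace h1 := (h1.trans (congrFun hκ (e, ⟨a, haZ⟩)).symm).trans h2
    have h3 : (Gf κ (L.lab e) (a * aGen s (L.lab e)))⁻¹ * Gf κ (L.ter e) (a * aGen s (L.lab e)) =
        T0 κ e a := congrArg Subtype.val h1
    have h4 : T0 κ e a = (Dt κ (L.lab e) a)⁻¹ * Dt κ (L.ini e) a *
      (c (L.lab e) (a * aGen s (L.ini e)) * (c (L.ter e) (a * aGen s (L.lab e)))⁻¹) := rfl
    rw [h4, hDt, hGe κ e] at h3
    generalize Gf κ (L.lab e) (a * aGen s (L.lab e)) = g1 at h3 ⊢
    generalize Gf κ (L.ter e) (a * aGen s (L.lab e)) = g2 at h3 ⊢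
    generalize Gf κ (L.lab e) (a * aGen s (L.ini e)) = g3 at h3 ⊢
    generalize c (L.lab e) (a * aGen s (L.ini e)) = c1 at h3 ⊢
    generalize c (L.ter e) (a * aGen s (L.lab e)) = c2 at h3 ⊢
    generalize (D κ (L.lab e) a)⁻¹ * D κ (L.ini e) a = u at h3 ⊢
    have h5 : g2 = u * g3 * (c1 * c2⁻¹) := by
      have h6 := congrArg (fun x => g1 * x) h3
      simp only [mul_inv_cancel_left] at h6
      rw [h6]
      group
    rw [h5]
    group

end

end Pool.Agent.Run7.h178.WD
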